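import Pool.Agent.W601.SQ.Stm

set_option autoImplicit false
open scoped Classical Cardinal
open Filter Topology

namespace Pool.Agent.W987.SQ

open Pool.Agent.W601.SQ

noncomputable section

theorem ip_eq {ι : Type} (m : ι →₀ ℤ) (y : ι → ℝ) (F : Finset ι) (h : m.support ⊆ F) :
    ip m y = ∑ i ∈ F, (m i : ℝ) * y i := by
  unfold ip
  exact Finsupp.sum_of_support_subset m h _ (fun i _ => by simp)

theorem ip_sub_left {ι : Type} (m m' : ι →₀ ℤ) (y : ι → ℝ) :
    ip (m - m') y = ip m y - ip m' y := by
  have h1 : m.support ⊆ m.support ∪ m'.support := Finset.subset_union_left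
  have h2 : m'.support ⊆ m.support ∪ m'.support := Finset.subset_union_right
  have h3 : (m - m').support ⊆ m.support ∪ m'.support := by
    intro i hi
    rw [Finset.mem_union, Finsupp.mem_support_iff, Finsupp.mem_support_iff]
    rw [Finsupp.mem_support_iff, Finsupp.sub_apply] at hi
    by_contra hcon
    push Not at hcon
    apply hi
    rw [hcon.1, hcon.2, sub_zero]
  rw [ip_eq m y _ h1, ip_eq m' y _ h2, ip_eq (m - m') y _ h3, ← Finset.sum_sub_distrib]
  refine Finset.sum_congr rfl ?_
  intro i _
  rw [Finsupp.sub_apply, Int.cast_sub, sub_mul]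

theorem ip_sub_right {ι : Type} (m : ι →₀ ℤ) (y y' : ι → ℝ) :
    ip m (fun i => y i - y' i) = ip m y - ip m y' := by
  rw [ip_eq m y _ (Finset.Subset.refl _), ip_eq m y' _ (Finset.Subset.refl _),
    ip_eq m _ _ (Finset.Subset.refl _), ← Finset.sum_sub_distrib]
  refine Finset.sum_congr rfl ?_
  intro i _
  rw [mul_sub]

theorem ker : S_ALG → S_KER := by
  intro hA θ hθ s hs
  obtain ⟨-, hcx, -, -, -, -, -, hch, -⟩ := hA
  obtain ⟨-, -, ⟨E, hE, hind⟩, -⟩ := hθ
  set C : Set ℝ := ⋃ β ∈ s.support, E β with hC
  have hCc : C.Countable := by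
    rw [hC]
    exact Set.Countable.biUnion (Finset.countable_toSet _) (fun β _ => hE β)
  have hnum : ∀ m : ℝ →₀ ℤ, ch s (gm θ m) = 1 →
      ∃ n : ℤ, ip s (fun β => ip m (fun α => θ α β)) = n := by
    intro m hm
    rw [hch θ s m] at hm
    exact (hcx _).1 hm
  haveI : Countable C := hCc.to_subtype
  let g : {m : ℝ →₀ ℤ | ch s (gm θ m) = 1} → ℤ × (C →₀ ℤ) := fun m =>
    (Classical.choose (hnum m.1 m.2), m.1.subtypeDomain (fun x => x ∈ C))
  have hg : Function.Injective g := by
    intro m m' h
    have hn : Classical.choose (hnum m.1 m.2) = Classical.choose (hnum m'.1 m'.2) :=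
      congrArg Prod.fst h
    have hr : m.1.subtypeDomain (fun x => x ∈ C) = m'.1.subtypeDomain (fun x => x ∈ C) :=
      congrArg Prod.snd h
    have e1 := Classical.choose_spec (hnum m.1 m.2)
    have e2 := Classical.choose_spec (hnum m'.1 m'.2)
    set d : ℝ →₀ ℤ := m.1 - m'.1 with hd
    have hdC : ∀ α ∈ C, d α = 0 := by
      intro α hα
      have := DFunLike.congr_fun hr ⟨α, hα⟩
      rw [Finsupp.subtypeDomain_apply, Finsupp.subtypeDomain_apply] at this
      rw [hd, Finsupp.sub_apply, this, sub_self]
    have hz : ip s (fun β => ip d (fun α => θ α β)) = 0 := by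
      have : (fun β => ip d (fun α => θ α β)) =
          fun β => ip m.1 (fun α => θ α β) - ip m'.1 (fun α => θ α β) := by
        funext β
        rw [hd, ip_sub_left]
      rw [this, ip_sub_right, e1, e2, hn, sub_self]
    let M : (ℝ × ℝ) →₀ ℤ := Finsupp.onFinset (d.support ×ˢ s.support)
      (fun p => d p.1 * s p.2) (by
        intro p hp
        rw [Finset.mem_product, Finsupp.mem_support_iff, Finsupp.mem_support_iff]
        exact ⟨left_ne_zero_of_mul hp, right_ne_zero_of_mul hp⟩)
    have hMapp : ∀ p : ℝ × ℝ, M p = d p.1 * s p.2 := fun p => rfl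
    have hMsub : M.support ⊆ d.support ×ˢ s.support := Finsupp.support_onFinset_subset
    have hM0 : M = 0 := by
      refine hind M 0 ?_ ?_
      · intro p hp hpE
        have hp' := Finset.mem_product.1 (hMsub hp)
        have : p.1 ∈ C := by
          rw [hC]
          exact Set.mem_biUnion (Finset.mem_coe.2 hp'.2) hpE
        exact (Finsupp.mem_support_iff.1 hp'.1) (hdC _ this)
      · rw [ip_eq M _ _ hMsub, Int.cast_zero, Finset.sum_product_right]
        rw [ip_eq s _ _ (Finset.Subset.refl _)] at hz
        rw [← hz]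
        refine Finset.sum_congr rfl ?_
        intro β _
        rw [ip_eq d _ _ (Finset.Subset.refl _), Finset.mul_sum]
        refine Finset.sum_congr rfl ?_
        intro α _
        rw [hMapp]
        push_cast
        ring
    obtain ⟨β, hβ⟩ : ∃ β, s β ≠ 0 := by
      by_contra hcon
      push Not at hcon
      exact hs (Finsupp.ext hcon)
    have hd0 : d = 0 := by
      ext α
      have h1 : M (α, β) = 0 := by rw [hM0]; rfl
      rw [hMapp] at h1
      rcases mul_eq_zero.1 h1 with h2 | h2
      · exact h2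
      · exact absurd h2 hβ
    apply Subtype.ext
    exact sub_eq_zero.1 hd0
  have : Countable {m : ℝ →₀ ℤ | ch s (gm θ m) = 1} := hg.countable
  exact this.to_set

end

end Pool.Agent.W987.SQ
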